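import Pool.Graph.R_pool_sql_team_seeded_3997aac3.Q175.EX.Sta

/-!
# Types E7 and E8: coordinates and reflections
-/

set_option autoImplicit false

namespace Pool.Agent.Helper47.EX

open Matrix Q175.EX

/-- twice the coordinates of `R^8` on the simple roots of `E_8` (Bourbaki) -/
def C8 : Matrix (Fin 8) (Fin 8) ℤ :=
  !![ 1, 2, -2,  0,  0,  0,  0,  0;
     -1, 2,  2, -2,  0,  0,  0,  0;
     -1, 0,  0,  2, -2,  0,  0,  0;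
     -1, 0,  0,  0,  2, -2,  0,  0;
     -1, 0,  0,  0,  0,  2, -2,  0;
     -1, 0,  0,  0,  0,  0,  2, -2;
     -1, 0,  0,  0,  0,  0,  0,  2;
      1, 0,  0,  0,  0,  0,  0,  0]

def w8 : Fin 8 → ℤ := fun _ => 1

def L8 : Matrix (Fin 8) (Fin 8) ℤ :=
  !![0, 0, 0, 0, 0, 0, 0, 4; 1, 1, 1, 1, 1, 1, 1, 5; -1, 1, 1, 1, 1, 1, 1, 7; 0, 0, 2, 2, 2, 2, 2, 10; 0, 0, 0, 2, 2, 2, 2, 8; 0, 0, 0, 0, 2, 2, 2, 6; 0, 0, 0, 0, 0, 2, 2, 4; 0, 0, 0, 0, 0, 0, 2, 2]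

def be8 : Matrix (Fin 6) (Fin 8) ℤ :=
  !![0, 1, 0, 1, 1, 1, 1, 1; 0, 1, 1, 1, 1, 1, 1, 1; 0, 1, 1, 2, 1, 1, 1, 1; 0, 1, 1, 2, 2, 1, 1, 1; 0, 1, 1, 2, 2, 2, 1, 1; 0, 1, 1, 2, 2, 2, 2, 1]

def ga8 : Matrix (Fin 6) (Fin 8) ℤ :=
  !![0, 0, -1, -1, -1, -1, -1, -1; 0, 0, 0, -1, -1, -1, -1, -1; 0, 0, 0, 0, -1, -1, -1, -1; 0, 0, 0, 0, 0, -1, -1, -1; 0, 0, 0, 0, 0, 0, -1, -1; 0, 0, 0, 0, 0, 0, 0, -1]

def be8' : Matrix (Fin 5) (Fin 8) ℤ :=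
  !![0, 1, 0, 1, 1, 1, 1, 0; 0, 1, 1, 1, 1, 1, 1, 0; 0, 1, 1, 2, 1, 1, 1, 0; 0, 1, 1, 2, 2, 1, 1, 0; 0, 1, 1, 2, 2, 2, 1, 0]

def ga8' : Matrix (Fin 5) (Fin 8) ℤ :=
  !![0, 0, -1, -1, -1, -1, -1, 0; 0, 0, 0, -1, -1, -1, -1, 0; 0, 0, 0, 0, -1, -1, -1, 0; 0, 0, 0, 0, 0, -1, -1, 0; 0, 0, 0, 0, 0, 0, -1, 0]

theorem L8_C8 : L8 * C8 = (4 : ℤ) • 1 := by decide +kernel

theorem w8_pos : ∀ a, 0 < w8 a := by decide +kernel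

theorem A8_C8 : ∀ i j, 4 * (Uc CartanMatrix.E₈ i j + Uc CartanMatrix.E₈ j i) =
    ∑ a, w8 a * (C8 a i * C8 a j) := by decide +kernel

theorem par8 : ∀ i a b, Even (C8 a i + C8 b i) := by decide +kernel

theorem be8_C : ∀ j : Fin 6, C8 *ᵥ (be8 j) = Pi.single j.castSucc.castSucc 2 + Pi.single 6 2 := by
  decide +kernel

theorem ga8_C : ∀ j : Fin 6, C8 *ᵥ (ga8 j) = Pi.single j.castSucc.castSucc 2 - Pi.single 6 2 := by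
  decide +kernel

theorem be8_rt : ∀ j : Fin 6, B (Uc CartanMatrix.E₈) (be8 j) (be8 j) = 1 := by
  decide +kernel

theorem ga8_rt : ∀ j : Fin 6, B (Uc CartanMatrix.E₈) (ga8 j) (ga8 j) = 1 := by
  decide +kernel

theorem be8'_C : ∀ j : Fin 5, C8 *ᵥ (be8' j) = Pi.single j.castSucc.castSucc.castSucc 2 +
    Pi.single 5 2 := by
  decide +kernel

theorem ga8'_C : ∀ j : Fin 5, C8 *ᵥ (ga8' j) = Pi.single j.castSucc.castSucc.castSucc 2 -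
    Pi.single 5 2 := by
  decide +kernel

theorem be8'_rt : ∀ j : Fin 5, B (Uc CartanMatrix.E₈) (be8' j) (be8' j) = 1 := by
  decide +kernel

theorem ga8'_rt : ∀ j : Fin 5, B (Uc CartanMatrix.E₈) (ga8' j) (ga8' j) = 1 := by
  decide +kernel

theorem finite8 : Finite (Rt (Uc CartanMatrix.E₈)) :=
  finite_rt (inj_of L8 4 (by norm_num) L8_C8) (ω := w8) w8_pos
    (fun x => Sf_of A8_C8 x x)

/-- twice the coordinates number `1, …, 6, 8` of `R^8` on the simple roots of `E_7` (Bourbaki) -/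
def C7 : Matrix (Fin 7) (Fin 7) ℤ :=
  !![ 1, 2, -2,  0,  0,  0,  0;
     -1, 2,  2, -2,  0,  0,  0;
     -1, 0,  0,  2, -2,  0,  0;
     -1, 0,  0,  0,  2, -2,  0;
     -1, 0,  0,  0,  0,  2, -2;
     -1, 0,  0,  0,  0,  0,  2;
      1, 0,  0,  0,  0,  0,  0]

def w7 : Fin 7 → ℤ := ![1, 1, 1, 1, 1, 1, 2]

def L7 : Matrix (Fin 7) (Fin 7) ℤ :=
  !![0, 0, 0, 0, 0, 0, 4; 1, 1, 1, 1, 1, 1, 4; -1, 1, 1, 1, 1, 1, 6; 0, 0, 2, 2, 2, 2, 8; 0, 0, 0, 2, 2, 2, 6; 0, 0, 0, 0, 2, 2, 4; 0, 0, 0, 0, 0, 2, 2]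

def be7 : Matrix (Fin 5) (Fin 7) ℤ :=
  !![0, 1, 0, 1, 1, 1, 1; 0, 1, 1, 1, 1, 1, 1; 0, 1, 1, 2, 1, 1, 1; 0, 1, 1, 2, 2, 1, 1; 0, 1, 1, 2, 2, 2, 1]

def ga7 : Matrix (Fin 5) (Fin 7) ℤ :=
  !![0, 0, -1, -1, -1, -1, -1; 0, 0, 0, -1, -1, -1, -1; 0, 0, 0, 0, -1, -1, -1; 0, 0, 0, 0, 0, -1, -1; 0, 0, 0, 0, 0, 0, -1]

def be7' : Matrix (Fin 4) (Fin 7) ℤ :=
  !![0, 1, 0, 1, 1, 1, 0; 0, 1, 1, 1, 1, 1, 0; 0, 1, 1, 2, 1, 1, 0; 0, 1, 1, 2, 2, 1, 0]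

def ga7' : Matrix (Fin 4) (Fin 7) ℤ :=
  !![0, 0, -1, -1, -1, -1, 0; 0, 0, 0, -1, -1, -1, 0; 0, 0, 0, 0, -1, -1, 0; 0, 0, 0, 0, 0, -1, 0]

theorem L7_C7 : L7 * C7 = (4 : ℤ) • 1 := by decide +kernel

theorem w7_pos : ∀ a, 0 < w7 a := by decide +kernel

theorem A7_C7 : ∀ i j, 4 * (Uc CartanMatrix.E₇ i j + Uc CartanMatrix.E₇ j i) =
    ∑ a, w7 a * (C7 a i * C7 a j) := by decide +kernel

theorem par7 : ∀ i a b, Even (C7 a i + C7 b i) := by decide +kernel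

theorem be7_C : ∀ j : Fin 5, C7 *ᵥ (be7 j) = Pi.single j.castSucc.castSucc 2 + Pi.single 5 2 := by
  decide +kernel

theorem ga7_C : ∀ j : Fin 5, C7 *ᵥ (ga7 j) = Pi.single j.castSucc.castSucc 2 - Pi.single 5 2 := by
  decide +kernel

theorem be7_rt : ∀ j : Fin 5, B (Uc CartanMatrix.E₇) (be7 j) (be7 j) = 1 := by
  decide +kernel

theorem ga7_rt : ∀ j : Fin 5, B (Uc CartanMatrix.E₇) (ga7 j) (ga7 j) = 1 := by
  decide +kernel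

theorem be7'_C : ∀ j : Fin 4, C7 *ᵥ (be7' j) = Pi.single j.castSucc.castSucc.castSucc 2 +
    Pi.single 4 2 := by
  decide +kernel

theorem ga7'_C : ∀ j : Fin 4, C7 *ᵥ (ga7' j) = Pi.single j.castSucc.castSucc.castSucc 2 -
    Pi.single 4 2 := by
  decide +kernel

theorem be7'_rt : ∀ j : Fin 4, B (Uc CartanMatrix.E₇) (be7' j) (be7' j) = 1 := by
  decide +kernel

theorem ga7'_rt : ∀ j : Fin 4, B (Uc CartanMatrix.E₇) (ga7' j) (ga7' j) = 1 := by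
  decide +kernel

theorem finite7 : Finite (Rt (Uc CartanMatrix.E₇)) :=
  finite_rt (inj_of L7 4 (by norm_num) L7_C7) (ω := w7) w7_pos
    (fun x => Sf_of A7_C7 x x)

variable {O : Type} [CommRing O]

/-- the automorphisms which are used -/
structure Ct {n : ℕ} (U : Matrix (Fin n) (Fin n) ℤ) (Γ : Subgroup (LA O U ≃ₗ[O] LA O U)) (u : Oˣ)
    (l : Fin n → ℤ) : Prop where
  le : Γ ≤ Ga O U
  two : ∀ l', (tor (U := U) (-1 : Oˣ) l').toE ∈ Γ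
  tor : ∀ l', (tor (U := U) u l').toE ∈ Γ
  rfl : ∀ β : Rt U, l ⬝ᵥ β.1 = 0 → (rf (O := O) β).toE ∈ Γ

theorem rig8 {Γ : Subgroup (LA O (Uc CartanMatrix.E₈) ≃ₗ[O] LA O (Uc CartanMatrix.E₈))} {u : Oˣ}
    (h : Ct _ Γ u (Pi.single 0 1)) (N : ℕ)
    (hN : (u = -1 ∧ N ≤ 2 ^ 6) ∨ (u * u = -1 ∧ N ≤ 2 ^ (6 + 1))) :
    Rig O (Uc CartanMatrix.E₈) C8 7 Γ u N := by
  have := finite8
  have hl : ∀ j : Fin 6, (Pi.single 0 1 : Fin 8 → ℤ) ⬝ᵥ be8 j = 0 ∧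
      (Pi.single 0 1 : Fin 8 → ℤ) ⬝ᵥ ga8 j = 0 := by decide +kernel
  have hp : ∀ j : Fin 6, j.castSucc.castSucc ≠ (7 : Fin 8) := by decide
  have h4 : (6 : Fin 8) ≠ 7 ∧ ∀ k : Fin 6, k.castSucc.castSucc ≠ (6 : Fin 8) := by decide
  have hi : Function.Injective fun j : Fin 6 => (j.castSucc.castSucc : Fin 8) := by decide
  have ha : ∀ j : Fin 6, j.castSucc.castSucc ≠ (6 : Fin 8) := by decide
  exact gen (wt := w8) w8_pos L8 4 (by norm_num) L8_C8 A8_C8 par8 7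
    (fun j : Fin 6 => j.castSucc.castSucc) hp hi _ h.le u (hN.imp And.left And.left) (h.two _)
    (fun _ _ _ => h.two _) (fun _ => h.tor _)
    (fun j => Or.inl ⟨⟨be8 j, be8_rt j⟩, ⟨ga8 j, ga8_rt j⟩, 6, h4, ha j, be8_C j, ga8_C j,
      rfl, rfl, mul_mem (h.rfl _ (hl j).1) (h.rfl _ (hl j).2)⟩) N hN

theorem rig8' {Γ : Subgroup (LA O (Uc CartanMatrix.E₈) ≃ₗ[O] LA O (Uc CartanMatrix.E₈))} {u : Oˣ}
    (h : Ct _ Γ u (Pi.single 7 1)) (N : ℕ)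
    (hN : (u = -1 ∧ N ≤ 2 ^ 5) ∨ (u * u = -1 ∧ N ≤ 2 ^ (5 + 1))) :
    Rig O (Uc CartanMatrix.E₈) C8 7 Γ u N := by
  have := finite8
  have hl : ∀ j : Fin 5, (Pi.single 7 1 : Fin 8 → ℤ) ⬝ᵥ be8' j = 0 ∧
      (Pi.single 7 1 : Fin 8 → ℤ) ⬝ᵥ ga8' j = 0 := by decide +kernel
  have hp : ∀ j : Fin 5, j.castSucc.castSucc.castSucc ≠ (7 : Fin 8) := by decide
  have h4 : (5 : Fin 8) ≠ 7 ∧ ∀ k : Fin 5, k.castSucc.castSucc.castSucc ≠ (5 : Fin 8) := by decide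
  have hi : Function.Injective fun j : Fin 5 => (j.castSucc.castSucc.castSucc : Fin 8) := by decide
  have ha : ∀ j : Fin 5, j.castSucc.castSucc.castSucc ≠ (5 : Fin 8) := by decide
  exact gen (wt := w8) w8_pos L8 4 (by norm_num) L8_C8 A8_C8 par8 7
    (fun j : Fin 5 => j.castSucc.castSucc.castSucc) hp hi _ h.le u (hN.imp And.left And.left)
    (h.two _) (fun _ _ _ => h.two _) (fun _ => h.tor _)
    (fun j => Or.inl ⟨⟨be8' j, be8'_rt j⟩, ⟨ga8' j, ga8'_rt j⟩, 5, h4, ha j, be8'_C j, ga8'_C j,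
      rfl, rfl, mul_mem (h.rfl _ (hl j).1) (h.rfl _ (hl j).2)⟩) N hN

theorem rig7 {Γ : Subgroup (LA O (Uc CartanMatrix.E₇) ≃ₗ[O] LA O (Uc CartanMatrix.E₇))} {u : Oˣ}
    (h : Ct _ Γ u (Pi.single 0 1)) (N : ℕ)
    (hN : (u = -1 ∧ N ≤ 2 ^ 5) ∨ (u * u = -1 ∧ N ≤ 2 ^ (5 + 1))) :
    Rig O (Uc CartanMatrix.E₇) C7 6 Γ u N := by
  have := finite7
  have hl : ∀ j : Fin 5, (Pi.single 0 1 : Fin 7 → ℤ) ⬝ᵥ be7 j = 0 ∧
      (Pi.single 0 1 : Fin 7 → ℤ) ⬝ᵥ ga7 j = 0 := by decide +kernel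
  have hp : ∀ j : Fin 5, j.castSucc.castSucc ≠ (6 : Fin 7) := by decide
  have h4 : (5 : Fin 7) ≠ 6 ∧ ∀ k : Fin 5, k.castSucc.castSucc ≠ (5 : Fin 7) := by decide
  have hi : Function.Injective fun j : Fin 5 => (j.castSucc.castSucc : Fin 7) := by decide
  have ha : ∀ j : Fin 5, j.castSucc.castSucc ≠ (5 : Fin 7) ∧ w7 j.castSucc.castSucc = 1 := by
    decide
  exact gen (wt := w7) w7_pos L7 4 (by norm_num) L7_C7 A7_C7 par7 6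
    (fun j : Fin 5 => j.castSucc.castSucc) hp hi _ h.le u (hN.imp And.left And.left) (h.two _)
    (fun _ _ _ => h.two _) (fun _ => h.tor _)
    (fun j => Or.inl ⟨⟨be7 j, be7_rt j⟩, ⟨ga7 j, ga7_rt j⟩, 5, h4, (ha j).1, be7_C j, ga7_C j,
      (ha j).2, rfl, mul_mem (h.rfl _ (hl j).1) (h.rfl _ (hl j).2)⟩) N hN

theorem rig7' {Γ : Subgroup (LA O (Uc CartanMatrix.E₇) ≃ₗ[O] LA O (Uc CartanMatrix.E₇))} {u : Oˣ}
    (h : Ct _ Γ u (Pi.single 6 1)) (N : ℕ)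
    (hN : (u = -1 ∧ N ≤ 2 ^ 4) ∨ (u * u = -1 ∧ N ≤ 2 ^ (4 + 1))) :
    Rig O (Uc CartanMatrix.E₇) C7 6 Γ u N := by
  have := finite7
  have hl : ∀ j : Fin 4, (Pi.single 6 1 : Fin 7 → ℤ) ⬝ᵥ be7' j = 0 ∧
      (Pi.single 6 1 : Fin 7 → ℤ) ⬝ᵥ ga7' j = 0 := by decide +kernel
  have hp : ∀ j : Fin 4, j.castSucc.castSucc.castSucc ≠ (6 : Fin 7) := by decide
  have h4 : (4 : Fin 7) ≠ 6 ∧ ∀ k : Fin 4, k.castSucc.castSucc.castSucc ≠ (4 : Fin 7) := by decide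
  have hi : Function.Injective fun j : Fin 4 => (j.castSucc.castSucc.castSucc : Fin 7) := by decide
  have ha : ∀ j : Fin 4, j.castSucc.castSucc.castSucc ≠ (4 : Fin 7) ∧
      w7 j.castSucc.castSucc.castSucc = 1 := by
    decide
  exact gen (wt := w7) w7_pos L7 4 (by norm_num) L7_C7 A7_C7 par7 6
    (fun j : Fin 4 => j.castSucc.castSucc.castSucc) hp hi _ h.le u (hN.imp And.left And.left)
    (h.two _) (fun _ _ _ => h.two _) (fun _ => h.tor _)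
    (fun j => Or.inl ⟨⟨be7' j, be7'_rt j⟩, ⟨ga7' j, ga7'_rt j⟩, 4, h4, (ha j).1, be7'_C j,
      ga7'_C j, (ha j).2, rfl, mul_mem (h.rfl _ (hl j).1) (h.rfl _ (hl j).2)⟩) N hN

end Pool.Agent.Helper47.EX
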