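import Pool.Agent.Helper47.EX.Fix

/-!
# Types E7 and E8: groups which contain the finite `2`-group
-/

set_option autoImplicit false

namespace Pool.Agent.Helper47.EX

open Matrix Q175.EX

variable {O : Type} [CommRing O]

theorem gen2 {n m : ℕ} {A : Matrix (Fin n) (Fin n) ℤ} {C : Matrix (Fin m) (Fin n) ℤ}
    {wt : Fin m → ℤ} (hwt : ∀ a, 0 < wt a) (L : Matrix (Fin n) (Fin m) ℤ) (d : ℤ) (hd : d ≠ 0)
    (hL : L * C = d • 1) (hAC : ∀ i j, 4 * (Uc A i j + Uc A j i) = ∑ a, wt a * (C a i * C a j))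
    (hpar : ∀ i a b, Even (C a i + C b i)) (p : Fin m) {r : ℕ} (a : Fin r → Fin m)
    (ha : ∀ j, a j ≠ p) (hinj : Function.Injective a) (b : Fin m) (hbp : b ≠ p)
    (hab : ∀ j, a j ≠ b) (be ga : Fin r → Fin n → ℤ) (hbe : ∀ j, B (Uc A) (be j) (be j) = 1)
    (hga : ∀ j, B (Uc A) (ga j) (ga j) = 1)
    (hbeC : ∀ j, C *ᵥ be j = Pi.single (a j) 2 + Pi.single b 2)
    (hgaC : ∀ j, C *ᵥ ga j = Pi.single (a j) 2 - Pi.single b 2)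
    (hwa : ∀ j, wt (a j) = 1) (hwb : wt b = 1) (l : Fin n → ℤ)
    (hl : ∀ j, l ⬝ᵥ be j = 0 ∧ l ⬝ᵥ ga j = 0) (u : Oˣ) (N : ℕ)
    (hN : (u = -1 ∧ N ≤ 2 ^ r) ∨ (u * u = -1 ∧ N ≤ 2 ^ (r + 1)))
    {Γ₀ : Subgroup (LA O (Uc A) ≃ₗ[O] LA O (Uc A))} (h : Ct (Uc A) Γ₀ u l)
    (Γ : Subgroup (LA O (Uc A) ≃ₗ[O] LA O (Uc A))) (hΓ : Γ ≤ Ga O (Uc A))
    (hm : ∀ g ∈ Γ₀, Mon C u g → g ∈ Γ) : Rig O (Uc A) C p Γ u N := by
  have hu : u = -1 ∨ u * u = -1 := hN.imp And.left And.left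
  have huk : ∃ k : ℤ, u ^ k = -1 := by
    rcases hu with h | h
    · exact ⟨1, by rw [zpow_one, h]⟩
    · exact ⟨2, by rw [← h]; exact zpow_two u⟩
  have hS := Sf_of (U := Uc A) (wt := wt) hAC
  have h2 : ∀ l', (tor (U := Uc A) (-1 : Oˣ) l').toE ∈ Γ := fun l' =>
    hm _ (h.two l') ((tors_MonD C huk l').mon fun _ => Or.inl rfl)
  have h3 : ∀ l', (tor (U := Uc A) u l').toE ∈ Γ := fun l' =>
    hm _ (h.tor l') ((tor_MonD C u l').mon fun _ => Or.inl rfl)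
  refine gen hwt L d hd hL hAC hpar p a ha hinj Γ hΓ u hu (h2 _) (fun _ _ _ => h2 _)
    (fun _ => h3 _) (fun j => Or.inl ⟨⟨be j, hbe j⟩, ⟨ga j, hga j⟩, b, ⟨hbp, hab⟩, hab j, hbeC j,
      hgaC j, hwa j, hwb, ?_⟩) N hN
  refine hm _ (mul_mem (h.rfl _ (hl j).1) (h.rfl _ (hl j).2))
    ((flip2 huk hS ⟨be j, hbe j⟩ ⟨ga j, hga j⟩ (a j) b (hab j) (hbeC j) (hgaC j) (hwa j) hwb).mon
      fun k => ?_)
  unfold fl2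
  split_ifs
  · exact Or.inr rfl
  · exact Or.inl rfl

/-- the conclusion of the following theorems -/
def Rg {n m : ℕ} (U : Matrix (Fin n) (Fin n) ℤ) (C : Matrix (Fin m) (Fin n) ℤ) (p : Fin m)
    (Γ₀ : Subgroup (LA O U ≃ₗ[O] LA O U)) (u : Oˣ) (N : ℕ) : Prop :=
  ∀ Γ : Subgroup (LA O U ≃ₗ[O] LA O U), Γ ≤ Ga O U → (∀ g ∈ Γ₀, Mon C u g → g ∈ Γ) →
    Rig O U C p Γ u N

theorem rg8 {Γ₀ : Subgroup (LA O (Uc CartanMatrix.E₈) ≃ₗ[O] LA O (Uc CartanMatrix.E₈))} {u : Oˣ}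
    (h : Ct _ Γ₀ u (Pi.single 0 1)) (N : ℕ)
    (hN : (u = -1 ∧ N ≤ 2 ^ 6) ∨ (u * u = -1 ∧ N ≤ 2 ^ (6 + 1))) :
    Rg (Uc CartanMatrix.E₈) C8 7 Γ₀ u N :=
  gen2 (wt := w8) w8_pos L8 4 (by norm_num) L8_C8 A8_C8 par8 7
    (fun j : Fin 6 => j.castSucc.castSucc) (by decide) (by decide) 6 (by decide) (by decide)
    be8 ga8 be8_rt ga8_rt be8_C ga8_C (fun _ => rfl) rfl (Pi.single 0 1) (by decide +kernel) u N hN h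

theorem rg8' {Γ₀ : Subgroup (LA O (Uc CartanMatrix.E₈) ≃ₗ[O] LA O (Uc CartanMatrix.E₈))} {u : Oˣ}
    (h : Ct _ Γ₀ u (Pi.single 7 1)) (N : ℕ)
    (hN : (u = -1 ∧ N ≤ 2 ^ 5) ∨ (u * u = -1 ∧ N ≤ 2 ^ (5 + 1))) :
    Rg (Uc CartanMatrix.E₈) C8 7 Γ₀ u N :=
  gen2 (wt := w8) w8_pos L8 4 (by norm_num) L8_C8 A8_C8 par8 7
    (fun j : Fin 5 => j.castSucc.castSucc.castSucc) (by decide) (by decide) 5 (by decide)
    (by decide) be8' ga8' be8'_rt ga8'_rt be8'_C ga8'_C (fun _ => rfl) rfl (Pi.single 7 1)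
    (by decide +kernel) u N hN h

theorem rg7 {Γ₀ : Subgroup (LA O (Uc CartanMatrix.E₇) ≃ₗ[O] LA O (Uc CartanMatrix.E₇))} {u : Oˣ}
    (h : Ct _ Γ₀ u (Pi.single 0 1)) (N : ℕ)
    (hN : (u = -1 ∧ N ≤ 2 ^ 5) ∨ (u * u = -1 ∧ N ≤ 2 ^ (5 + 1))) :
    Rg (Uc CartanMatrix.E₇) C7 6 Γ₀ u N :=
  gen2 (wt := w7) w7_pos L7 4 (by norm_num) L7_C7 A7_C7 par7 6
    (fun j : Fin 5 => j.castSucc.castSucc) (by decide) (by decide) 5 (by decide) (by decide)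
    be7 ga7 be7_rt ga7_rt be7_C ga7_C (by decide) rfl (Pi.single 0 1) (by decide +kernel) u N hN h

theorem rg7' {Γ₀ : Subgroup (LA O (Uc CartanMatrix.E₇) ≃ₗ[O] LA O (Uc CartanMatrix.E₇))} {u : Oˣ}
    (h : Ct _ Γ₀ u (Pi.single 6 1)) (N : ℕ)
    (hN : (u = -1 ∧ N ≤ 2 ^ 4) ∨ (u * u = -1 ∧ N ≤ 2 ^ (4 + 1))) :
    Rg (Uc CartanMatrix.E₇) C7 6 Γ₀ u N :=
  gen2 (wt := w7) w7_pos L7 4 (by norm_num) L7_C7 A7_C7 par7 6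
    (fun j : Fin 4 => j.castSucc.castSucc.castSucc) (by decide) (by decide) 4 (by decide)
    (by decide) be7' ga7' be7'_rt ga7'_rt be7'_C ga7'_C (by decide) rfl (Pi.single 6 1)
    (by decide +kernel) u N hN h

end Pool.Agent.Helper47.EX
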