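import Pool.Agent.Helper47.EX.Data
import Pool.Graph.R_seed8.H185.ZM.Hom
import Pool.Graph.R_seed8.H185.ZM.Equi

/-!
# Types E7 and E8: actions on closed manifolds
-/

set_option autoImplicit false

namespace Pool.Agent.Helper47.EX

open Matrix Q175.EX Module Pool.Agent.H185.ZM Pool.Agent.Helper381
open scoped Manifold ContDiff

/-- A finite `2`-group acting on a closed manifold `M`, `χ(M)` not divisible by `2 ^ (k + 1)`, has an
orbit with at most `2 ^ k` points. -/
theorem exists_orbit {E : Type} [NormedAddCommGroup E] [NormedSpace ℝ E] [FiniteDimensional ℝ E]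
    {M : Type} [TopologicalSpace M] [ChartedSpace E M] [IsManifold 𝓘(ℝ, E) ∞ M] [CompactSpace M]
    [T2Space M] [ConnectedSpace M] {P : Type} [Group P] [Finite P]
    (hP : IsPGroup 2 P) {a : P → M → M} (ha : SmoothAction E a) (k : ℕ)
    (hχ : ¬ (2 : ℤ) ^ (k + 1) ∣ eulerChar M) :
    ∃ x : M, (Set.range fun g => a g x).ncard ≤ 2 ^ k := by
  classical
  by_contra hcon
  push Not at hcon
  let _ : MulAction P M := { smul := a, one_smul := ha.one, mul_smul := ha.mul }
  obtain ⟨s, hs⟩ := IsPGroup.iff_card.1 hP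
  have hst : ∀ x : M, ∃ j, k + 1 ≤ j ∧ j ≤ s ∧
      Nat.card (MulAction.stabilizer P x) = 2 ^ (s - j) := by
    intro x
    have h1 : (MulAction.stabilizer P x).index = (Set.range fun g => a g x).ncard :=
      MulAction.index_stabilizer P x
    have h2 : (MulAction.stabilizer P x).index ∣ 2 ^ s := by
      rw [← hs]
      exact Subgroup.index_dvd_card _
    obtain ⟨j, hj, hj'⟩ := (Nat.dvd_prime_pow Nat.prime_two).1 h2
    have h3 := hcon x
    rw [← h1, hj'] at h3
    have h4 : k < j := (Nat.pow_lt_pow_iff_right (by norm_num)).1 h3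
    refine ⟨j, h4, hj, ?_⟩
    have h5 := Subgroup.card_mul_index (MulAction.stabilizer P x)
    rw [hj', hs] at h5
    have h6 : (2 : ℕ) ^ s = 2 ^ (s - j) * 2 ^ j := by
      rw [← pow_add, Nat.sub_add_cancel hj]
    rw [h6] at h5
    exact Nat.eq_of_mul_eq_mul_right (by positivity) h5
  obtain ⟨j0, hj0, hj0s, -⟩ := hst (Classical.arbitrary M)
  have hd := smooth_dvd_euler ha (2 ^ (s - (k + 1))) (by
    intro x Q hQ
    obtain ⟨j, hj, hjs, hc⟩ := hst x
    have h1 : Q ≤ MulAction.stabilizer P x := fun q hq => hQ q hq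
    refine (Subgroup.card_dvd_of_le h1).trans ?_
    rw [hc]
    exact pow_dvd_pow _ (by omega))
  apply hχ
  rw [hs] at hd
  have h1 : ((2 ^ s : ℕ) : ℤ) = 2 ^ (s - (k + 1)) * 2 ^ (k + 1) := by
    rw [← pow_add, Nat.sub_add_cancel (by omega)]
    push_cast
    rfl
  rw [h1] at hd
  push_cast at hd
  exact Int.dvd_of_mul_dvd_mul_left (by positivity) hd

variable {O : Type} [CommRing O] {n m : ℕ} {U : Matrix (Fin n) (Fin n) ℤ}

theorem fix_of [Finite (Rt U)] (hU : ∀ j, U j j = 1) {Γ : Subgroup (LA O U ≃ₗ[O] LA O U)}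
    (hΓ : Γ ≤ Ga O U) {C : Matrix (Fin m) (Fin n) ℤ} (hC : Function.Injective C.mulVec) {u : Oˣ}
    (hu : u ^ 4 = 1) {z : Γ} {N : ℕ} (hz : FixZ Γ (Dm Γ C u) z N)
    (E M : Type) [NormedAddCommGroup E] [NormedSpace ℝ E] [FiniteDimensional ℝ E]
    [TopologicalSpace M] [ChartedSpace E M] [IsManifold 𝓘(ℝ, E) ∞ M] [CompactSpace M]
    [T2Space M] [ConnectedSpace M] (k : ℕ) (hχ : ¬ (2 : ℤ) ^ (k + 1) ∣ eulerChar M)
    (hdim : finrank ℝ E * 2 ^ k < N) (α : Γ → (M ≃ₘ^∞⟮𝓘(ℝ, E), 𝓘(ℝ, E)⟯ M)) (hα : IsHom α)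
    (x : M) : α z x = x := by
  have hfin : Finite (Dm Γ C u) := finite_D hU hΓ hC hu
  have hp : IsPGroup 2 (Dm Γ C u) := pgroup_D hU hΓ hC hu
  let _ : MulAction Γ M := { smul := fun g x => α g x, one_smul := hα.action.one, mul_smul := hα }
  have h1 : IsManifold 𝓘(ℝ, E) 1 M := IsManifold.of_le (n := ∞) (by exact_mod_cast le_top)
  have h2 : SmoothAction E (fun (g : Dm Γ C u) (x : M) => α g.1 x) :=
    { one := fun x => hα.action.one x
      mul := fun g h x => hα g.1 h.1 x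
      smooth := fun g => hα.action.smooth g.1 }
  obtain ⟨y, hy⟩ := exists_orbit hp h2 k hχ
  exact hz k E M (fun g => ((α g).contMDiff_toFun).of_le (by exact_mod_cast le_top))
    (Or.inl ⟨y, hy⟩) hdim x

end Pool.Agent.Helper47.EX
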